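import Mathlib
import Pool.Agent.H.MP_54e6ab_lc.B

namespace Pool.Agent.Results.MP_54e6ab_lc.Undec

open Pool.Agent.Lib.FO Pool.Agent.H.MP_54e6ab_lc

theorem result : Und (fun x : ℕ => PresentedMonoid.of (K ℕ) x) ∧ Und (fun x : ℤ => PresentedMonoid.of (K ℤ) x) ∧
    ∀ (A : Type) [LinearOrder A] [Nonempty A] [NoMaxOrder A], Und (Empty.elim : Empty → PresentedMonoid (K A)) :=
  ⟨und _, und _, fun _ _ _ _ => und _⟩

end Pool.Agent.Results.MP_54e6ab_lc.Undec
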